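import Pool.Agent.Helper54_PGL.Resalg

set_option autoImplicit false

open Polynomial
open scoped IntermediateField

namespace Helper54_PGL

universe u

section Sim
variable {F : Type*} [Field F] (U : ValuationSubring F)

/-- `g` and `h` have the same leading term -/
def Sim (g h : F) : Prop := U.valuation (g - h) < U.valuation h

variable {U}

theorem Sim.ne {g h : F} (s : Sim U g h) : h ≠ 0 := by
  rintro rfl
  unfold Sim at s
  rw [map_zero] at s
  exact absurd s (not_lt.mpr zero_le)

theorem Sim.val {g h : F} (s : Sim U g h) : U.valuation g = U.valuation h := by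
  have e : U.valuation (h + (g - h)) = U.valuation h := Valuation.map_add_eq_of_lt_left _ s
  rwa [add_sub_cancel] at e

theorem Sim.refl {g : F} (h : g ≠ 0) : Sim U g g := by
  unfold Sim
  rw [sub_self, map_zero]
  exact zero_lt_iff.mpr ((Valuation.ne_zero_iff _).mpr h)

theorem Sim.mul {g h g' h' : F} (s : Sim U g h) (s' : Sim U g' h') : Sim U (g * g') (h * h') := by
  have e : g * g' - h * h' = (g - h) * g' + h * (g' - h') := by ring
  have hh : 0 < U.valuation h := zero_lt_iff.mpr ((Valuation.ne_zero_iff _).mpr s.ne)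
  have hh' : 0 < U.valuation h' := zero_lt_iff.mpr ((Valuation.ne_zero_iff _).mpr s'.ne)
  have v' := s'.val
  unfold Sim at *
  rw [e]
  apply Valuation.map_add_lt
  · rw [map_mul, map_mul, v']
    exact mul_lt_mul_of_pos_right s hh'
  · rw [map_mul, map_mul]
    exact mul_lt_mul_of_pos_left s' hh

theorem Sim.inv {g h : F} (s : Sim U g h) : Sim U g⁻¹ h⁻¹ := by
  have hh : U.valuation h ≠ 0 := (Valuation.ne_zero_iff _).mpr s.ne
  have hv := s.val
  have hg : g ≠ 0 := by
    rw [← Valuation.ne_zero_iff U.valuation, hv]; exact hh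
  have e : g⁻¹ - h⁻¹ = -((g - h) * (g⁻¹ * h⁻¹)) := by
    have := s.ne
    field_simp
    ring
  unfold Sim at *
  rw [e, Valuation.map_neg, map_mul, map_mul, map_inv₀, map_inv₀, hv]
  have hp : 0 < (U.valuation h)⁻¹ * (U.valuation h)⁻¹ :=
    zero_lt_iff.mpr (mul_ne_zero (inv_ne_zero hh) (inv_ne_zero hh))
  calc U.valuation (g - h) * ((U.valuation h)⁻¹ * (U.valuation h)⁻¹)
      < U.valuation h * ((U.valuation h)⁻¹ * (U.valuation h)⁻¹) := mul_lt_mul_of_pos_right s hp
    _ = (U.valuation h)⁻¹ := by rw [← mul_assoc, mul_inv_cancel₀ hh, one_mul]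

theorem Sim.div {g h g' h' : F} (s : Sim U g h) (s' : Sim U g' h') : Sim U (g / g') (h / h') := by
  rw [div_eq_mul_inv, div_eq_mul_inv]
  exact s.mul s'.inv

end Sim

section
variable {k Ω F : Type*} [Field k] [IsAlgClosed k] [Field Ω] [IsAlgClosed Ω] [Algebra k Ω] [Field F]
  [Algebra Ω F] [Algebra k F] [IsScalarTower k Ω F] {V : ValuationSubring Ω} {U : ValuationSubring F}

theorem mem_V_iff (h1 : ∀ w ∈ V, algebraMap Ω F w ∈ U)
    (h2 : ∀ w ∈ V.nonunits, algebraMap Ω F w ∈ U.nonunits) (w : Ω) :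
    w ∈ V ↔ U.valuation (algebraMap Ω F w) ≤ 1 := by
  constructor
  · intro h; rw [← mem_U]; exact h1 w h
  · intro h
    by_contra hw
    have h3 : w⁻¹ ∈ V.nonunits := V.inv_mem_nonunits_iff.mpr (Or.inr hw)
    have h4 := h2 _ h3
    rw [mem_nu, map_inv₀, map_inv₀] at h4
    have hw0 : algebraMap Ω F w ≠ 0 := by
      rw [Ne, map_eq_zero]
      rintro rfl
      exact hw V.zero_mem
    have hv0 : U.valuation (algebraMap Ω F w) ≠ 0 := (Valuation.ne_zero_iff _).mpr hw0
    rw [inv_lt_one₀ (zero_lt_iff.mpr hv0)] at h4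
    exact absurd h (not_le.mpr h4)

theorem res_V (hV : PGL.ResVal k V) (h2 : ∀ w ∈ V.nonunits, algebraMap Ω F w ∈ U.nonunits) (w : Ω)
    (hw : w ∈ V) : ∃ c : k, algebraMap Ω F w - algebraMap k F c ∈ U.nonunits := by
  obtain ⟨c, hc⟩ := hV.res w hw
  refine ⟨c, ?_⟩
  have := h2 _ hc
  rwa [map_sub, ← IsScalarTower.algebraMap_apply k Ω F] at this

theorem res_of_sim (hV : PGL.ResVal k V) (h1 : ∀ w ∈ V, algebraMap Ω F w ∈ U)
    (h2 : ∀ w ∈ V.nonunits, algebraMap Ω F w ∈ U.nonunits) {f : F} (hf : f ∈ U) {a : Ω}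
    (s : Sim U f (algebraMap Ω F a)) : ∃ c : k, f - algebraMap k F c ∈ U.nonunits := by
  have ha : a ∈ V := by
    rw [mem_V_iff h1 h2, ← s.val, ← mem_U]; exact hf
  obtain ⟨c, hc⟩ := res_V hV h2 a ha
  refine ⟨c, ?_⟩
  have e : f - algebraMap k F c = (f - algebraMap Ω F a) + (algebraMap Ω F a - algebraMap k F c) := by
    ring
  rw [e]
  apply U.nonunits.add_mem _ hc
  rw [mem_nu]
  refine lt_of_lt_of_le s ?_
  rw [← s.val, ← mem_U]; exact hf

/-- case (ii): polynomials -/
theorem sim_poly (x : F) (c : Ω) (n : ℕ) : ∀ P : Polynomial Ω, P ≠ 0 → P.natDegree ≤ n →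
    (∀ a, P.IsRoot a → U.valuation (x - algebraMap Ω F c) < U.valuation (x - algebraMap Ω F a)) →
    Sim U (aeval x P) (algebraMap Ω F (P.eval c)) := by
  induction n with
  | zero =>
    intro P hP hn _
    have h0 : P = C (P.coeff 0) := eq_C_of_natDegree_le_zero hn
    have hc : P.coeff 0 ≠ 0 := by
      intro h1; apply hP; rw [h0, h1, C_0]
    rw [h0, aeval_C, eval_C]
    apply Sim.refl
    rwa [Ne, map_eq_zero]
  | succ n ih =>
    intro P hP hn hr
    by_cases hd : P.degree = 0
    · apply ih P hP _ hr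
      rw [Polynomial.natDegree_eq_of_degree_eq_some hd]
      exact Nat.zero_le _
    obtain ⟨a, ha⟩ := IsAlgClosed.exists_root P hd
    obtain ⟨P', hP'⟩ := Polynomial.dvd_iff_isRoot.mpr ha
    have hP0 : P' ≠ 0 := by
      rintro rfl; apply hP; rw [hP', mul_zero]
    have hdeg : P'.natDegree ≤ n := by
      have : P.natDegree = 1 + P'.natDegree := by
        rw [hP', natDegree_mul (X_sub_C_ne_zero a) hP0, natDegree_X_sub_C]
      omega
    have ih' := ih P' hP0 hdeg (fun b hb => hr b (by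
      rw [hP']; exact Polynomial.root_mul_left_of_isRoot _ hb))
    have hlt := hr a ha
    rw [hP', map_mul, eval_mul, map_mul]
    refine Sim.mul ?_ ih'
    rw [map_sub, aeval_X, aeval_C, eval_sub, eval_X, eval_C, map_sub]
    unfold Sim
    have e1 : x - algebraMap Ω F a - (algebraMap Ω F c - algebraMap Ω F a) = x - algebraMap Ω F c := by
      ring
    have e2 : algebraMap Ω F c - algebraMap Ω F a
        = (x - algebraMap Ω F a) - (x - algebraMap Ω F c) := by ring
    rw [e1, e2, Valuation.map_sub_eq_of_lt_left _ hlt]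
    exact hlt

theorem exists_close (x : F) (himp : ∀ c : Ω, ∃ c' : Ω,
    U.valuation (x - algebraMap Ω F c') < U.valuation (x - algebraMap Ω F c)) (s : Finset Ω) :
    ∃ c : Ω, ∀ a ∈ s, U.valuation (x - algebraMap Ω F c) < U.valuation (x - algebraMap Ω F a) := by
  classical
  induction s using Finset.induction_on with
  | empty => exact ⟨0, fun a ha => absurd ha (Finset.notMem_empty a)⟩
  | insert a s ha ih =>
    obtain ⟨c, hc⟩ := ih
    rcases lt_or_ge (U.valuation (x - algebraMap Ω F c)) (U.valuation (x - algebraMap Ω F a)) with h | h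
    · refine ⟨c, fun b hb => ?_⟩
      rcases Finset.mem_insert.mp hb with rfl | hb
      · exact h
      · exact hc b hb
    · obtain ⟨c', hc'⟩ := himp a
      refine ⟨c', fun b hb => ?_⟩
      rcases Finset.mem_insert.mp hb with rfl | hb
      · exact hc'
      · exact (hc'.trans_le h).trans (hc b hb)

/-- incomparability in case (i) -/
theorem incomp {t : F} (ht : ∀ d : Ω, d ≠ 0 → U.valuation (t / algebraMap Ω F d) ≠ 1) {n : ℕ}
    (hn : n ≠ 0) {a : Ω} (ha : a ≠ 0) : U.valuation (algebraMap Ω F a * t ^ n) ≠ 1 := by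
  intro h
  obtain ⟨d, hd⟩ := IsAlgClosed.exists_pow_nat_eq (a⁻¹) (Nat.pos_of_ne_zero hn)
  have hd0 : d ≠ 0 := by
    rintro rfl
    rw [zero_pow hn] at hd
    exact inv_ne_zero ha hd.symm
  apply ht d hd0
  have hd1 : algebraMap Ω F d ≠ 0 := by rwa [Ne, map_eq_zero]
  have e : (t / algebraMap Ω F d) ^ n = algebraMap Ω F a * t ^ n := by
    rw [div_pow, ← map_pow, hd, map_inv₀, div_inv_eq_mul, mul_comm]
  have h2 : (U.valuation (t / algebraMap Ω F d)) ^ n = 1 := by
    rw [← map_pow, e, h]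
  exact (pow_eq_one_iff_of_nonneg zero_le hn).mp h2

theorem sim_case1 {t : F} (ht0 : t ≠ 0)
    (ht : ∀ d : Ω, d ≠ 0 → U.valuation (t / algebraMap Ω F d) ≠ 1) (R : Polynomial Ω) (hR : R ≠ 0) :
    ∃ (a : Ω) (i : ℕ), a ≠ 0 ∧ Sim U (aeval t R) (algebraMap Ω F a * t ^ i) := by
  classical
  obtain ⟨i, hi, hmax⟩ := Finset.exists_max_image R.support
    (fun i => U.valuation (algebraMap Ω F (R.coeff i) * t ^ i))
    (Polynomial.nonempty_support_iff.mpr hR)
  have hi0 : R.coeff i ≠ 0 := Polynomial.mem_support_iff.mp hi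
  refine ⟨R.coeff i, i, hi0, ?_⟩
  have hne : ∀ j, R.coeff j ≠ 0 → algebraMap Ω F (R.coeff j) * t ^ j ≠ 0 := fun j hj =>
    mul_ne_zero (by rwa [Ne, map_eq_zero]) (pow_ne_zero _ ht0)
  have key : ∀ j ∈ R.support.erase i, U.valuation (algebraMap Ω F (R.coeff j) * t ^ j)
      < U.valuation (algebraMap Ω F (R.coeff i) * t ^ i) := by
    intro j hj
    obtain ⟨hji, hj⟩ := Finset.mem_erase.mp hj
    have hj0 : R.coeff j ≠ 0 := Polynomial.mem_support_iff.mp hj
    refine lt_of_le_of_ne (hmax j hj) fun h => ?_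
    have hi1 : algebraMap Ω F (R.coeff i) ≠ 0 := by rwa [Ne, map_eq_zero]
    have hj1 : algebraMap Ω F (R.coeff j) ≠ 0 := by rwa [Ne, map_eq_zero]
    rcases lt_or_gt_of_ne hji with hlt | hlt
    · apply incomp ht (Nat.sub_ne_zero_of_lt hlt) (div_ne_zero hi0 hj0)
      have e : algebraMap Ω F (R.coeff i / R.coeff j) * t ^ (i - j)
          = (algebraMap Ω F (R.coeff i) * t ^ i) / (algebraMap Ω F (R.coeff j) * t ^ j) := by
        rw [map_div₀, eq_div_iff (hne j hj0)]
        have : t ^ i = t ^ (i - j) * t ^ j := by rw [← pow_add, Nat.sub_add_cancel hlt.le]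
        rw [this]; field_simp
      rw [e, map_div₀, h, div_self ((Valuation.ne_zero_iff _).mpr (hne i hi0))]
    · apply incomp ht (Nat.sub_ne_zero_of_lt hlt) (div_ne_zero hj0 hi0)
      have e : algebraMap Ω F (R.coeff j / R.coeff i) * t ^ (j - i)
          = (algebraMap Ω F (R.coeff j) * t ^ j) / (algebraMap Ω F (R.coeff i) * t ^ i) := by
        rw [map_div₀, eq_div_iff (hne i hi0)]
        have : t ^ j = t ^ (j - i) * t ^ i := by rw [← pow_add, Nat.sub_add_cancel hlt.le]
        rw [this]; field_simp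
      rw [e, map_div₀, h, div_self ((Valuation.ne_zero_iff _).mpr (hne i hi0))]
  unfold Sim
  have e : aeval t R - algebraMap Ω F (R.coeff i) * t ^ i
      = ∑ j ∈ R.support.erase i, algebraMap Ω F (R.coeff j) * t ^ j := by
    rw [aeval_eq_sum_range' (Nat.lt_succ_self R.natDegree),
      ← Finset.sum_subset (s₁ := R.support) (fun j hj => Finset.mem_range.mpr
        (Nat.lt_succ_of_le (le_natDegree_of_mem_supp j hj))),
      ← Finset.add_sum_erase _ _ hi]
    · simp only [Algebra.smul_def]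
      ring
    · intro j _ hj
      rw [Polynomial.notMem_support_iff.mp hj, zero_smul]
  rw [e]
  exact Valuation.map_sum_lt _ ((Valuation.ne_zero_iff _).mpr (hne i hi0)) key

/-- step 1 -/
theorem exists_z (hV : PGL.ResVal k V) (h1 : ∀ w ∈ V, algebraMap Ω F w ∈ U)
    (h2 : ∀ w ∈ V.nonunits, algebraMap Ω F w ∈ U.nonunits) (x f : F) (hf : f ∈ Ω⟮x⟯) (hfU : f ∈ U)
    (hres : ∀ c : k, f - algebraMap k F c ∉ U.nonunits) :
    ∃ c d : Ω, d ≠ 0 ∧ (x - algebraMap Ω F c) / algebraMap Ω F d ∈ U ∧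
      ∀ e : k, (x - algebraMap Ω F c) / algebraMap Ω F d - algebraMap k F e ∉ U.nonunits := by
  classical
  by_contra hcon
  push Not at hcon
  obtain ⟨P, Q, hPQ⟩ := (IntermediateField.mem_adjoin_simple_iff Ω f).mp hf
  have hf0 : f ≠ 0 := by
    rintro rfl
    apply hres 0
    rw [map_zero, sub_zero, mem_nu, map_zero]
    exact zero_lt_one
  have hPx : aeval x P ≠ 0 := by
    intro h; apply hf0; rw [hPQ, h, zero_div]
  have hQx : aeval x Q ≠ 0 := by
    intro h; apply hf0; rw [hPQ, h, div_zero]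
  have hP0 : P ≠ 0 := by rintro rfl; exact hPx (map_zero _)
  have hQ0 : Q ≠ 0 := by rintro rfl; exact hQx (map_zero _)
  by_cases hc : ∀ c : Ω, ∃ d : Ω, d ≠ 0 ∧ U.valuation ((x - algebraMap Ω F c) / algebraMap Ω F d) = 1
  · -- improvement
    have himp : ∀ c : Ω, ∃ c' : Ω,
        U.valuation (x - algebraMap Ω F c') < U.valuation (x - algebraMap Ω F c) := by
      intro c
      obtain ⟨d, hd, hv⟩ := hc c
      obtain ⟨e, he⟩ := hcon c d hd ((mem_U _ _).mpr hv.le)
      have hd1 : algebraMap Ω F d ≠ 0 := by rwa [Ne, map_eq_zero]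
      have hd2 : U.valuation (algebraMap Ω F d) ≠ 0 := (Valuation.ne_zero_iff _).mpr hd1
      refine ⟨c + d * algebraMap k Ω e, ?_⟩
      have e1 : x - algebraMap Ω F (c + d * algebraMap k Ω e)
          = algebraMap Ω F d * ((x - algebraMap Ω F c) / algebraMap Ω F d - algebraMap k F e) := by
        rw [IsScalarTower.algebraMap_apply k Ω F, map_add, map_mul]
        field_simp
        ring
      have e2 : x - algebraMap Ω F c
          = algebraMap Ω F d * ((x - algebraMap Ω F c) / algebraMap Ω F d) := by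
        field_simp
      rw [e1, e2, map_mul, map_mul, hv, ← e2]
      rw [mem_nu] at he
      exact mul_lt_mul_of_pos_left he (zero_lt_iff.mpr hd2)
    obtain ⟨c, hc'⟩ := exists_close x himp (P.roots.toFinset ∪ Q.roots.toFinset)
    have sP := sim_poly (U := U) x c P.natDegree P hP0 le_rfl (fun a ha => hc' a (by
      rw [Finset.mem_union, Multiset.mem_toFinset, Polynomial.mem_roots hP0]; exact Or.inl ha))
    have sQ := sim_poly (U := U) x c Q.natDegree Q hQ0 le_rfl (fun a ha => hc' a (by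
      rw [Finset.mem_union, Multiset.mem_toFinset, Multiset.mem_toFinset,
        Polynomial.mem_roots hQ0]; exact Or.inr ha))
    have s := sP.div sQ
    rw [← hPQ, ← map_div₀] at s
    obtain ⟨c', hc'⟩ := res_of_sim hV h1 h2 hfU s
    exact hres c' hc'
  · push Not at hc
    obtain ⟨c, hc⟩ := hc
    have hcomp : ∀ R : Polynomial Ω, R ≠ 0 →
        aeval (x - algebraMap Ω F c) (R.comp (X + C c)) = aeval x R ∧ R.comp (X + C c) ≠ 0 := by
      intro R hR
      constructor
      · rw [aeval_comp, map_add, aeval_X, aeval_C, sub_add_cancel]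
      · intro h
        apply hR
        have := congrArg (fun T => T.comp (X - C c)) h
        simpa [comp_assoc] using this
    by_cases ht0 : x - algebraMap Ω F c = 0
    · have hx : x = algebraMap Ω F c := sub_eq_zero.mp ht0
      have hf1 : f = algebraMap Ω F (P.eval c / Q.eval c) := by
        rw [hPQ, hx, map_div₀, aeval_algebraMap_apply, aeval_algebraMap_apply]
        simp
      have s : Sim U f (algebraMap Ω F (P.eval c / Q.eval c)) := by
        rw [← hf1]; exact Sim.refl hf0
      obtain ⟨c', hc'⟩ := res_of_sim hV h1 h2 hfU s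
      exact hres c' hc'
    · obtain ⟨eP, hP'⟩ := hcomp P hP0
      obtain ⟨eQ, hQ'⟩ := hcomp Q hQ0
      obtain ⟨a, i, ha, sP⟩ := sim_case1 ht0 hc _ hP'
      obtain ⟨b, j, hb, sQ⟩ := sim_case1 ht0 hc _ hQ'
      rw [eP] at sP
      rw [eQ] at sQ
      have s := sP.div sQ
      rw [← hPQ] at s
      have hv1 : U.valuation f = 1 := by
        refine le_antisymm ((mem_U _ _).mp hfU) (not_lt.mp fun h => hres 0 ?_)
        rw [map_zero, sub_zero, mem_nu]; exact h
      have hv := s.val
      rw [hv1] at hv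
      have ha1 : algebraMap Ω F a ≠ 0 := by rwa [Ne, map_eq_zero]
      have hb1 : algebraMap Ω F b ≠ 0 := by rwa [Ne, map_eq_zero]
      rcases lt_trichotomy i j with hlt | heq | hlt
      · apply incomp hc (Nat.sub_ne_zero_of_lt hlt) (div_ne_zero hb ha)
        have e : algebraMap Ω F (b / a) * (x - algebraMap Ω F c) ^ (j - i)
            = ((algebraMap Ω F a * (x - algebraMap Ω F c) ^ i) /
              (algebraMap Ω F b * (x - algebraMap Ω F c) ^ j))⁻¹ := by
          have : (x - algebraMap Ω F c) ^ j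
              = (x - algebraMap Ω F c) ^ (j - i) * (x - algebraMap Ω F c) ^ i := by
            rw [← pow_add, Nat.sub_add_cancel hlt.le]
          rw [map_div₀, this]; field_simp
        rw [e, map_inv₀, ← hv, inv_one]
      · subst heq
        have e : (algebraMap Ω F a * (x - algebraMap Ω F c) ^ i) /
              (algebraMap Ω F b * (x - algebraMap Ω F c) ^ i) = algebraMap Ω F (a / b) := by
          rw [map_div₀]; field_simp
        rw [e] at s
        obtain ⟨c', hc'⟩ := res_of_sim hV h1 h2 hfU s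
        exact hres c' hc'
      · apply incomp hc (Nat.sub_ne_zero_of_lt hlt) (div_ne_zero ha hb)
        have e : algebraMap Ω F (a / b) * (x - algebraMap Ω F c) ^ (i - j)
            = ((algebraMap Ω F a * (x - algebraMap Ω F c) ^ i) /
              (algebraMap Ω F b * (x - algebraMap Ω F c) ^ j)) := by
          have : (x - algebraMap Ω F c) ^ i
              = (x - algebraMap Ω F c) ^ (i - j) * (x - algebraMap Ω F c) ^ j := by
            rw [← pow_add, Nat.sub_add_cancel hlt.le]
          rw [map_div₀, this]; field_simp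
        rw [e, ← hv]

/-- step 2: the Gauss property -/
theorem gauss_poly (hV : PGL.ResVal k V) (h1 : ∀ w ∈ V, algebraMap Ω F w ∈ U)
    (h2 : ∀ w ∈ V.nonunits, algebraMap Ω F w ∈ U.nonunits) (z : F) (hz : z ∈ U)
    (hres : ∀ c : k, z - algebraMap k F c ∉ U.nonunits) (P : Polynomial Ω) (hP : P ≠ 0) :
    ∃ (a : Ω) (r : k[X]) (ε : F), a ≠ 0 ∧ ε ∈ U.nonunits ∧ r ≠ 0 ∧ U.valuation (aeval z r) = 1 ∧
      aeval z P = algebraMap Ω F a * (aeval z r + ε) := by
  classical
  have hk : ∀ c : k, algebraMap k F c ∈ U := fun c => by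
    rw [IsScalarTower.algebraMap_apply k Ω F]; exact h1 _ (hV.const c)
  obtain ⟨i, hi, hmax⟩ := Finset.exists_max_image P.support
    (fun i => U.valuation (algebraMap Ω F (P.coeff i))) (Polynomial.nonempty_support_iff.mpr hP)
  have hi0 : P.coeff i ≠ 0 := Polynomial.mem_support_iff.mp hi
  have hi1 : algebraMap Ω F (P.coeff i) ≠ 0 := by rwa [Ne, map_eq_zero]
  have hi2 : U.valuation (algebraMap Ω F (P.coeff i)) ≠ 0 := (Valuation.ne_zero_iff _).mpr hi1
  have hco : ∀ j, P.coeff j / P.coeff i ∈ V := by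
    intro j
    rw [mem_V_iff h1 h2, map_div₀, map_div₀, div_le_iff₀ (zero_lt_iff.mpr hi2), one_mul]
    by_cases hj : j ∈ P.support
    · exact hmax j hj
    · rw [Polynomial.notMem_support_iff.mp hj]; simp
  have hc : ∀ j, ∃ c : k, algebraMap Ω F (P.coeff j / P.coeff i) - algebraMap k F c ∈ U.nonunits :=
    fun j => res_V hV h2 _ (hco j)
  choose c hc using hc
  set N := P.natDegree with hN
  set r : k[X] := ∑ i ∈ Finset.range (N + 1), C (c i) * X ^ i with hr
  have hiN : i < N + 1 := Nat.lt_succ_of_le (le_natDegree_of_mem_supp i hi)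
  have hrc : r.coeff i = c i := by
    rw [hr, finsetSum_coeff]
    simp only [coeff_C_mul, coeff_X_pow]
    rw [Finset.sum_eq_single i]
    · simp
    · intro b _ hb; simp [Ne.symm hb]
    · intro h; exact absurd (Finset.mem_range.mpr hiN) h
  have hr0 : r ≠ 0 := by
    intro h0
    rw [h0, coeff_zero] at hrc
    apply one_not_nu U
    have := hc i
    rw [div_self hi0, ← hrc, map_zero, sub_zero, map_one] at this
    exact this
  have hrU : aeval z r ∈ U := by
    rw [hr, map_sum]
    refine Subring.sum_mem U.toSubring fun j _ => ?_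
    rw [map_mul, aeval_C, map_pow, aeval_X]
    exact mul_mem (hk _) (pow_mem hz j)
  refine ⟨P.coeff i, r, ∑ j ∈ Finset.range (N + 1),
    (algebraMap Ω F (P.coeff j / P.coeff i) - algebraMap k F (c j)) * z ^ j, hi0, ?_, hr0, ?_, ?_⟩
  · exact sum_nu U _ _ fun j _ => nu_mul U (hc j) (U.pow_mem hz j)
  · refine le_antisymm ((mem_U _ _).mp hrU) (not_lt.mp fun h => ?_)
    obtain ⟨c', hc'⟩ := root_of_small U hk z hz r.natDegree r hr0 le_rfl ((mem_nu _ _).mpr h)
    exact hres c' hc'
  · have e1 : aeval z r = ∑ j ∈ Finset.range (N + 1), algebraMap k F (c j) * z ^ j := by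
      rw [hr, map_sum]
      refine Finset.sum_congr rfl fun j _ => ?_
      rw [map_mul, aeval_C, map_pow, aeval_X]
    rw [e1, ← Finset.sum_add_distrib, aeval_eq_sum_range, Finset.mul_sum]
    refine Finset.sum_congr rfl fun j _ => ?_
    rw [Algebra.smul_def, map_div₀]
    field_simp
    ring

end

theorem bbg : PGL.BBGStmt.{u} := by
  intro k Ω F _ _ _ _ _ _ _ _ _ V U hV h1 h2 x f hf hfU hres
  obtain ⟨c, d, hd, hz, hzr⟩ := exists_z hV h1 h2 x f hf hfU hres
  set z := (x - algebraMap Ω F c) / algebraMap Ω F d with hzdef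
  have hd1 : algebraMap Ω F d ≠ 0 := by rwa [Ne, map_eq_zero]
  have hx : x = algebraMap Ω F d * z + algebraMap Ω F c := by
    rw [hzdef]; field_simp; ring
  have hcomp : ∀ R : Polynomial Ω, aeval z (R.comp (C d * X + C c)) = aeval x R := by
    intro R
    rw [aeval_comp, map_add, map_mul, aeval_X, aeval_C, aeval_C, ← hx]
  have key : ∀ g ∈ Ω⟮x⟯, g ≠ 0 → ∃ (e : Ω) (r s : k[X]) (ε δ : F), e ≠ 0 ∧ ε ∈ U.nonunits ∧
      δ ∈ U.nonunits ∧ s ≠ 0 ∧ U.valuation (aeval z r) = 1 ∧ U.valuation (aeval z s) = 1 ∧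
      g * (aeval z s + δ) = algebraMap Ω F e * (aeval z r + ε) := by
    intro g hg hg0
    obtain ⟨P, Q, hPQ⟩ := (IntermediateField.mem_adjoin_simple_iff Ω g).mp hg
    have hPx : aeval x P ≠ 0 := by
      intro h; apply hg0; rw [hPQ, h, zero_div]
    have hQx : aeval x Q ≠ 0 := by
      intro h; apply hg0; rw [hPQ, h, div_zero]
    have hP0 : P.comp (C d * X + C c) ≠ 0 := by
      intro h; apply hPx; rw [← hcomp, h, map_zero]
    have hQ0 : Q.comp (C d * X + C c) ≠ 0 := by
      intro h; apply hQx; rw [← hcomp, h, map_zero]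
    obtain ⟨a, r, ε, ha, hε, hr, hvr, er⟩ := gauss_poly hV h1 h2 z hz hzr _ hP0
    obtain ⟨b, s, δ, hb, hδ, hs, hvs, es⟩ := gauss_poly hV h1 h2 z hz hzr _ hQ0
    refine ⟨a / b, r, s, ε, δ, div_ne_zero ha hb, hε, hδ, hs, hvr, hvs, ?_⟩
    rw [hcomp] at er es
    have hb1 : algebraMap Ω F b ≠ 0 := by rwa [Ne, map_eq_zero]
    have : g * aeval x Q = aeval x P := by rw [hPQ, div_mul_cancel₀ _ hQx]
    rw [er, es] at this
    rw [map_div₀]
    field_simp
    linear_combination this
  have unit : ∀ {g h : F}, U.valuation g = 1 → h ∈ U.nonunits → U.valuation (g + h) = 1 := by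
    intro g h hg hh
    rw [mem_nu] at hh
    rw [Valuation.map_add_eq_of_lt_left, hg]
    rwa [hg]
  have hvg : ∀ (g : F) (e : Ω) (r s : k[X]) (ε δ : F), ε ∈ U.nonunits → δ ∈ U.nonunits →
      U.valuation (aeval z r) = 1 → U.valuation (aeval z s) = 1 →
      g * (aeval z s + δ) = algebraMap Ω F e * (aeval z r + ε) →
      U.valuation g = U.valuation (algebraMap Ω F e) := by
    intro g e r s ε δ hε hδ hr hs h
    have := congrArg U.valuation h
    rwa [map_mul, map_mul, unit hr hε, unit hs hδ, mul_one, mul_one] at this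
  refine ⟨c, d, z, hd, rfl, hz, hzr, ?_, ?_⟩
  · intro g hg hg0
    obtain ⟨e, r, s, ε, δ, he, hε, hδ, hs, hvr, hvs, h⟩ := key g hg hg0
    have hv := hvg g e r s ε δ hε hδ hvr hvs h
    have he1 : algebraMap Ω F e ≠ 0 := by rwa [Ne, map_eq_zero]
    have he2 : U.valuation (algebraMap Ω F e) ≠ 0 := (Valuation.ne_zero_iff _).mpr he1
    refine ⟨e, he, ?_, ?_⟩
    · rw [mem_U, map_div₀, hv, div_self he2]
    · rw [mem_U, map_div₀, hv, div_self he2]
  · intro g hg hgU
    by_cases hg0 : g = 0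
    · refine ⟨0, 1, one_ne_zero, ?_⟩
      rw [hg0, map_zero, zero_mul, sub_zero, mem_nu, map_zero]
      exact zero_lt_one
    obtain ⟨e, r, s, ε, δ, he, hε, hδ, hs, hvr, hvs, h⟩ := key g hg hg0
    have hv := hvg g e r s ε δ hε hδ hvr hvs h
    have heV : e ∈ V := by
      rw [mem_V_iff h1 h2, ← hv, ← mem_U]; exact hgU
    obtain ⟨e', he'⟩ := res_V hV h2 e heV
    refine ⟨C e' * r, s, hs, ?_⟩
    have hrU : aeval z r ∈ U := (mem_U _ _).mpr hvr.le
    have e1 : g * aeval z s - aeval z (C e' * r)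
        = (algebraMap Ω F e - algebraMap k F e') * aeval z r + algebraMap Ω F e * ε - g * δ := by
      rw [map_mul, aeval_C]
      linear_combination h
    rw [e1]
    exact sub_mem (U.nonunits.add_mem (nu_mul U he' hrU) (mul_nu U (h1 _ heV) hε))
      (mul_nu U hgU hδ)

end Helper54_PGL
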