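import Pool.Agent.Helper11_PGL.StmtB

set_option autoImplicit false

open Polynomial

namespace Helper54_PGL

universe u

section
variable {F : Type*} [Field F]

theorem mem_nu (U : ValuationSubring F) (x : F) : x ∈ U.nonunits ↔ U.valuation x < 1 :=
  U.mem_nonunits_iff

theorem mem_U (U : ValuationSubring F) (x : F) : x ∈ U ↔ U.valuation x ≤ 1 :=
  (U.valuation_le_one_iff x).symm

theorem one_not_nu (U : ValuationSubring F) : (1 : F) ∉ U.nonunits := by
  rw [mem_nu, map_one]; exact lt_irrefl _

theorem nu_mem (U : ValuationSubring F) {x : F} (h : x ∈ U.nonunits) : x ∈ U := by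
  rw [mem_nu] at h; rw [mem_U]; exact h.le

theorem mul_nu (U : ValuationSubring F) {x y : F} (hx : x ∈ U) (hy : y ∈ U.nonunits) :
    x * y ∈ U.nonunits := by
  rw [mem_nu] at *
  rw [mem_U] at hx
  rw [map_mul]
  calc U.valuation x * U.valuation y ≤ 1 * U.valuation y := by gcongr
    _ < 1 := by rwa [one_mul]

theorem nu_mul (U : ValuationSubring F) {x y : F} (hx : x ∈ U.nonunits) (hy : y ∈ U) :
    x * y ∈ U.nonunits := by
  rw [mul_comm]; exact mul_nu U hy hx

theorem sum_nu (U : ValuationSubring F) {ι : Type*} (s : Finset ι) (f : ι → F)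
    (h : ∀ i ∈ s, f i ∈ U.nonunits) : ∑ i ∈ s, f i ∈ U.nonunits := by
  classical
  induction s using Finset.induction_on with
  | empty => simp
  | insert a s ha ih =>
    rw [Finset.sum_insert ha]
    exact U.nonunits.add_mem (h a (Finset.mem_insert_self _ _))
      (ih fun i hi => h i (Finset.mem_insert_of_mem hi))

theorem scaled (U : ValuationSubring F) (L : Subfield F) (y : F) (h : IsAlgebraic L y) :
    ∃ q : Polynomial L, (∀ i, (q.coeff i : F) ∈ U) ∧ (∃ i, q.coeff i = 1) ∧ aeval y q = 0 := by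
  obtain ⟨p, hp, hpy⟩ := h
  obtain ⟨i, hi, hmax⟩ := Finset.exists_max_image p.support (fun i => U.valuation (p.coeff i : F))
    (Polynomial.nonempty_support_iff.mpr hp)
  have hi0 : p.coeff i ≠ 0 := Polynomial.mem_support_iff.mp hi
  have hi1 : ((p.coeff i : L) : F) ≠ 0 := by simpa using hi0
  refine ⟨C (p.coeff i)⁻¹ * p, fun j => ?_, ⟨i, ?_⟩, ?_⟩
  · rw [coeff_C_mul, mem_U]
    push_cast
    rw [map_mul, map_inv₀]
    have hv : U.valuation (p.coeff i : F) ≠ 0 := by
      rw [Valuation.ne_zero_iff]; exact hi1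
    by_cases hj : j ∈ p.support
    · rw [inv_mul_le_iff₀ (zero_lt_iff.mpr hv), mul_one]
      exact hmax j hj
    · rw [Polynomial.notMem_support_iff.mp hj]
      simp
  · rw [coeff_C_mul, inv_mul_cancel₀ hi0]
  · rw [map_mul, hpy, mul_zero]

theorem root_of_small {k : Type*} [Field k] [IsAlgClosed k] [Algebra k F] (U : ValuationSubring F)
    (hk : ∀ c : k, algebraMap k F c ∈ U) (y : F) (hy : y ∈ U) (n : ℕ) :
    ∀ r : k[X], r ≠ 0 → r.natDegree ≤ n → aeval y r ∈ U.nonunits →
      ∃ c : k, y - algebraMap k F c ∈ U.nonunits := by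
  induction n with
  | zero =>
    intro r hr hn h
    have h0 : r = C (r.coeff 0) := eq_C_of_natDegree_le_zero hn
    have hc : r.coeff 0 ≠ 0 := by
      intro h1; apply hr; rw [h0, h1, C_0]
    rw [h0, aeval_C] at h
    exfalso
    apply one_not_nu U
    have := mul_nu U (hk (r.coeff 0)⁻¹) h
    rwa [← map_mul, inv_mul_cancel₀ hc, map_one] at this
  | succ n ih =>
    intro r hr hn h
    by_cases hd : r.degree = 0
    · apply ih r hr _ h
      rw [Polynomial.natDegree_eq_of_degree_eq_some hd]
      exact Nat.zero_le _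
    obtain ⟨a, ha⟩ := IsAlgClosed.exists_root r hd
    obtain ⟨r', hr'⟩ := Polynomial.dvd_iff_isRoot.mpr ha
    have hr0 : r' ≠ 0 := by
      rintro rfl; apply hr; rw [hr', mul_zero]
    have hdeg : r'.natDegree ≤ n := by
      have : r.natDegree = 1 + r'.natDegree := by
        rw [hr', natDegree_mul (X_sub_C_ne_zero a) hr0, natDegree_X_sub_C]
      omega
    rw [hr', map_mul, map_sub, aeval_X, aeval_C] at h
    by_cases hya : y - algebraMap k F a ∈ U.nonunits
    · exact ⟨a, hya⟩
    · apply ih r' hr0 hdeg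
      rw [mem_nu] at h hya ⊢
      have h1 : U.valuation (y - algebraMap k F a) ≤ 1 := by
        rw [← mem_U]; exact U.sub_mem hy (hk a)
      have h2 : U.valuation (y - algebraMap k F a) = 1 := le_antisymm h1 (not_lt.mp hya)
      rw [map_mul, h2, one_mul] at h
      exact h

end

theorem resalg : PGL.ResAlgStmt.{u} := by
  intro k F _ _ _ _ U L y hL hk halg hy
  obtain ⟨q, hq, ⟨i₀, hi₀⟩, hqy⟩ := scaled U L y halg
  have hc : ∀ i, ∃ c : k, (q.coeff i : F) - algebraMap k F c ∈ U.nonunits := fun i =>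
    hL _ (q.coeff i).2 (hq i)
  choose c hc using hc
  set N := q.natDegree with hN
  set r : k[X] := ∑ i ∈ Finset.range (N + 1), C (c i) * X ^ i with hr
  have hi₀N : i₀ < N + 1 := by
    have : i₀ ≤ q.natDegree := le_natDegree_of_ne_zero (by rw [hi₀]; exact one_ne_zero)
    omega
  have hrc : r.coeff i₀ = c i₀ := by
    rw [hr, finsetSum_coeff]
    simp only [coeff_C_mul, coeff_X_pow]
    rw [Finset.sum_eq_single i₀]
    · simp
    · intro b _ hb; simp [Ne.symm hb]
    · intro h; exact absurd (Finset.mem_range.mpr hi₀N) h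
  have hr0 : r ≠ 0 := by
    intro h0
    rw [h0, coeff_zero] at hrc
    apply one_not_nu U
    have := hc i₀
    rw [hi₀, ← hrc, map_zero, sub_zero] at this
    simpa using this
  refine root_of_small U hk y hy r.natDegree r hr0 le_rfl ?_
  have e1 : aeval y r = ∑ i ∈ Finset.range (N + 1), algebraMap k F (c i) * y ^ i := by
    rw [hr, map_sum]
    refine Finset.sum_congr rfl fun i _ => ?_
    rw [map_mul, aeval_C, map_pow, aeval_X]
  have e2 : ∑ i ∈ Finset.range (N + 1), (q.coeff i : F) * y ^ i = 0 := by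
    rw [← hqy, aeval_eq_sum_range]
    refine Finset.sum_congr rfl fun i _ => ?_
    rw [Subfield.smul_def, smul_eq_mul]
  have e3 : aeval y r = - ∑ i ∈ Finset.range (N + 1),
      ((q.coeff i : F) - algebraMap k F (c i)) * y ^ i := by
    rw [e1]
    simp only [sub_mul, Finset.sum_sub_distrib]
    rw [e2]; ring
  rw [e3]
  apply U.nonunits.neg_mem
  apply sum_nu
  intro i _
  exact nu_mul U (hc i) (U.pow_mem hy i)

end Helper54_PGL
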