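import Pool.Agent.Helper54_PGL.Bbg

set_option autoImplicit false

open Polynomial

namespace Helper54_PGL

universe u

section
variable {k Ω : Type*} [Field k] [Field Ω] [Algebra k Ω] {U : ValuationSubring Ω} {θ : Ω}

/-- the valuation ring at infinity -/
theorem exists_inf (hθ : Transcendental k θ) : ∃ U : ValuationSubring Ω,
    (∀ c : k, algebraMap k Ω c ∈ U) ∧ 1 < U.valuation θ := by
  have hθ0 : θ ≠ 0 := by
    rintro rfl; exact hθ isAlgebraic_zero
  set A : Subring Ω := (aeval (R := k) θ⁻¹).range.toSubring with hA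
  have hmem : θ⁻¹ ∈ A := ⟨X, by simp⟩
  set I : Ideal A := Ideal.span {⟨θ⁻¹, hmem⟩} with hI
  have hI1 : I ≠ ⊤ := by
    rw [Ideal.ne_top_iff_one, hI, Ideal.mem_span_singleton']
    rintro ⟨⟨a, q, hq⟩, ha⟩
    have h1 : a * θ⁻¹ = 1 := congrArg Subtype.val ha
    have hq' : aeval θ⁻¹ q = a := hq
    apply hθ
    rw [← inv_inv θ]
    apply IsAlgebraic.inv
    refine ⟨q * X - 1, ?_, ?_⟩
    · intro h
      have := congrArg (fun r => r.coeff 0) h
      simp at this
    · rw [map_sub, map_mul, aeval_X, hq', h1, map_one, sub_self]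
  obtain ⟨U, hU1, hU2⟩ := Ideal.image_subset_nonunits_valuationSubring I hI1
  refine ⟨U, fun c => hU1 ⟨C c, by simp⟩, ?_⟩
  have h3 : θ⁻¹ ∈ U.nonunits := hU2 ⟨⟨θ⁻¹, hmem⟩, Ideal.subset_span rfl, rfl⟩
  rw [mem_nu, map_inv₀] at h3
  have hv : U.valuation θ ≠ 0 := (Valuation.ne_zero_iff _).mpr hθ0
  rwa [inv_lt_one₀ (zero_lt_iff.mpr hv)] at h3

theorem val_const (hk : ∀ c : k, algebraMap k Ω c ∈ U) {c : k} (hc : c ≠ 0) :
    U.valuation (algebraMap k Ω c) = 1 := by
  refine le_antisymm ((mem_U _ _).mp (hk c)) (not_lt.mp fun h => ?_)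
  apply one_not_nu U
  have := mul_nu U (hk c⁻¹) ((mem_nu _ _).mpr h)
  rwa [← map_mul, inv_mul_cancel₀ hc, map_one] at this

theorem sim_inf (hk : ∀ c : k, algebraMap k Ω c ∈ U) (h1 : 1 < U.valuation θ) (P : k[X])
    (hP : P ≠ 0) : Sim U (aeval θ P) (algebraMap k Ω P.leadingCoeff * θ ^ P.natDegree) := by
  have hlc : P.leadingCoeff ≠ 0 := leadingCoeff_ne_zero.mpr hP
  have h0 : (0 : U.ValueGroup) < U.valuation θ := zero_lt_one.trans h1
  unfold Sim
  rw [aeval_eq_sum_range, Finset.sum_range_succ, Algebra.smul_def, ← leadingCoeff,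
    add_sub_cancel_right]
  apply Valuation.map_sum_lt
  · rw [map_mul, val_const hk hlc, one_mul, map_pow]
    exact pow_ne_zero _ h0.ne'
  · intro i hi
    rw [Algebra.smul_def, map_mul, map_mul, val_const hk hlc, one_mul, map_pow, map_pow]
    calc U.valuation (algebraMap k Ω (P.coeff i)) * U.valuation θ ^ i
        ≤ 1 * U.valuation θ ^ i := by
          gcongr
          exact (mem_U _ _).mp (hk _)
      _ = U.valuation θ ^ i := one_mul _
      _ < U.valuation θ ^ P.natDegree := pow_lt_pow_right₀ h1 (Finset.mem_range.mp hi)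

/-- elements of the rational function field -/
theorem sim_ratFunc [Algebra (RatFunc k) Ω] [IsScalarTower k (RatFunc k) Ω]
    (hk : ∀ c : k, algebraMap k Ω c ∈ U) (hX : algebraMap (RatFunc k) Ω RatFunc.X = θ)
    (h1 : 1 < U.valuation θ) (g : RatFunc k) (hg : g ≠ 0) :
    ∃ (c : k) (n m : ℕ), c ≠ 0 ∧
      Sim U (algebraMap (RatFunc k) Ω g) (algebraMap k Ω c * θ ^ n / θ ^ m) := by
  have hX' : ∀ P : k[X], algebraMap (RatFunc k) Ω (algebraMap k[X] (RatFunc k) P) = aeval θ P := by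
    intro P
    rw [← hX, aeval_algebraMap_apply, RatFunc.aeval_X_left_eq_algebraMap]
  have hn : g.num ≠ 0 := RatFunc.num_ne_zero hg
  have hd : g.denom ≠ 0 := g.denom_ne_zero
  have s := (sim_inf hk h1 _ hn).div (sim_inf hk h1 _ hd)
  rw [← hX', ← hX', ← map_div₀, RatFunc.num_div_denom] at s
  refine ⟨g.num.leadingCoeff / g.denom.leadingCoeff, g.num.natDegree, g.denom.natDegree,
    div_ne_zero (leadingCoeff_ne_zero.mpr hn) (leadingCoeff_ne_zero.mpr hd), ?_⟩
  convert s using 1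
  rw [map_div₀]
  field_simp

theorem val_ratFunc [Algebra (RatFunc k) Ω] [IsScalarTower k (RatFunc k) Ω]
    (hk : ∀ c : k, algebraMap k Ω c ∈ U) (hX : algebraMap (RatFunc k) Ω RatFunc.X = θ)
    (h1 : 1 < U.valuation θ) (g : RatFunc k) (hg : g ≠ 0) :
    ∃ i : ℤ, U.valuation (algebraMap (RatFunc k) Ω g) = U.valuation θ ^ i := by
  obtain ⟨c, n, m, hc, s⟩ := sim_ratFunc hk hX h1 g hg
  have h0 : U.valuation θ ≠ 0 := (zero_lt_one.trans h1).ne'
  refine ⟨n - m, ?_⟩
  rw [s.val, map_div₀, map_mul, val_const hk hc, one_mul, map_pow, map_pow, zpow_sub₀ h0,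
    zpow_natCast, zpow_natCast]

theorem res_ratFunc [Algebra (RatFunc k) Ω] [IsScalarTower k (RatFunc k) Ω]
    (hk : ∀ c : k, algebraMap k Ω c ∈ U) (hX : algebraMap (RatFunc k) Ω RatFunc.X = θ)
    (h1 : 1 < U.valuation θ) (g : RatFunc k) (hg : algebraMap (RatFunc k) Ω g ∈ U) :
    ∃ c : k, algebraMap (RatFunc k) Ω g - algebraMap k Ω c ∈ U.nonunits := by
  by_cases hg0 : g = 0
  · refine ⟨0, ?_⟩
    rw [hg0, map_zero, map_zero, sub_zero, mem_nu, map_zero]
    exact zero_lt_one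
  obtain ⟨c, n, m, hc, s⟩ := sim_ratFunc hk hX h1 g hg0
  have h0 : U.valuation θ ≠ 0 := (zero_lt_one.trans h1).ne'
  have hθ0 : θ ≠ 0 := (Valuation.ne_zero_iff _).mp h0
  have hv := s.val
  rw [map_div₀, map_mul, val_const hk hc, one_mul, map_pow, map_pow] at hv
  rw [mem_U, hv, div_le_iff₀ (zero_lt_iff.mpr (pow_ne_zero _ h0)), one_mul] at hg
  have hnm : n ≤ m := (pow_le_pow_iff_right₀ h1).mp hg
  rcases hnm.lt_or_eq with hlt | rfl
  · refine ⟨0, ?_⟩
    rw [map_zero, sub_zero, mem_nu, hv, div_lt_one₀ (zero_lt_iff.mpr (pow_ne_zero _ h0))]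
    exact pow_lt_pow_right₀ h1 hlt
  · refine ⟨c, ?_⟩
    rw [mul_div_assoc, div_self (pow_ne_zero _ hθ0), mul_one] at s
    rw [mem_nu]
    unfold Sim at s
    rwa [val_const hk hc] at s

theorem pow_val [Algebra (RatFunc k) Ω] [IsScalarTower k (RatFunc k) Ω]
    (hk : ∀ c : k, algebraMap k Ω c ∈ U) (hX : algebraMap (RatFunc k) Ω RatFunc.X = θ)
    (h1 : 1 < U.valuation θ) (y : Ω) (hy0 : y ≠ 0) (hy : IsAlgebraic (RatFunc k) y) :
    ∃ (s : ℕ) (i : ℤ), s ≠ 0 ∧ U.valuation y ^ s = U.valuation θ ^ i := by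
  classical
  obtain ⟨p, hp, hpy⟩ := hy
  obtain ⟨i, hi, hmax⟩ := Finset.exists_max_image p.support
    (fun i => U.valuation (algebraMap (RatFunc k) Ω (p.coeff i) * y ^ i))
    (Polynomial.nonempty_support_iff.mpr hp)
  have hne : ∀ j, p.coeff j ≠ 0 → algebraMap (RatFunc k) Ω (p.coeff j) * y ^ j ≠ 0 := fun j hj =>
    mul_ne_zero (by rwa [Ne, map_eq_zero]) (pow_ne_zero _ hy0)
  have hi0 : p.coeff i ≠ 0 := Polynomial.mem_support_iff.mp hi
  have hvy : U.valuation y ≠ 0 := (Valuation.ne_zero_iff _).mpr hy0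
  -- two terms of the same valuation
  have key : ∃ j ∈ p.support, j ≠ i ∧
      U.valuation (algebraMap (RatFunc k) Ω (p.coeff j) * y ^ j)
        = U.valuation (algebraMap (RatFunc k) Ω (p.coeff i) * y ^ i) := by
    by_contra hcon
    push Not at hcon
    have h2 : U.valuation (∑ j ∈ p.support.erase i, algebraMap (RatFunc k) Ω (p.coeff j) * y ^ j)
        < U.valuation (algebraMap (RatFunc k) Ω (p.coeff i) * y ^ i) := by
      refine Valuation.map_sum_lt _ ((Valuation.ne_zero_iff _).mpr (hne i hi0)) fun j hj => ?_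
      obtain ⟨hji, hj⟩ := Finset.mem_erase.mp hj
      exact lt_of_le_of_ne (hmax j hj) (hcon j hj hji)
    have e : algebraMap (RatFunc k) Ω (p.coeff i) * y ^ i
        = - ∑ j ∈ p.support.erase i, algebraMap (RatFunc k) Ω (p.coeff j) * y ^ j := by
      rw [aeval_eq_sum_range' (Nat.lt_succ_self p.natDegree),
        ← Finset.sum_subset (s₁ := p.support) (fun j hj => Finset.mem_range.mpr
          (Nat.lt_succ_of_le (le_natDegree_of_mem_supp j hj))),
        ← Finset.add_sum_erase _ _ hi] at hpy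
      · simp only [Algebra.smul_def] at hpy
        linear_combination hpy
      · intro j _ hj
        rw [Polynomial.notMem_support_iff.mp hj, zero_smul]
    rw [e, Valuation.map_neg] at h2
    exact lt_irrefl _ h2
  obtain ⟨j, hj, hji, hv⟩ := key
  have hj0 : p.coeff j ≠ 0 := Polynomial.mem_support_iff.mp hj
  have main : ∀ a b : ℕ, a < b → p.coeff a ≠ 0 → p.coeff b ≠ 0 →
      U.valuation (algebraMap (RatFunc k) Ω (p.coeff a) * y ^ a)
        = U.valuation (algebraMap (RatFunc k) Ω (p.coeff b) * y ^ b) →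
      ∃ (s : ℕ) (i : ℤ), s ≠ 0 ∧ U.valuation y ^ s = U.valuation θ ^ i := by
    intro a b hab ha hb hv
    obtain ⟨l, hl⟩ := val_ratFunc hk hX h1 (p.coeff a / p.coeff b) (div_ne_zero ha hb)
    refine ⟨b - a, l, Nat.sub_ne_zero_of_lt hab, ?_⟩
    rw [← hl, map_div₀, map_div₀]
    have hb1 : U.valuation (algebraMap (RatFunc k) Ω (p.coeff b)) ≠ 0 :=
      (Valuation.ne_zero_iff _).mpr (by rwa [Ne, map_eq_zero])
    have e : U.valuation y ^ b = U.valuation y ^ (b - a) * U.valuation y ^ a := by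
      rw [← pow_add, Nat.sub_add_cancel hab.le]
    rw [map_mul, map_mul, map_pow, map_pow, e, ← mul_assoc] at hv
    have hv' := mul_right_cancel₀ (pow_ne_zero a hvy) hv
    rw [hv', mul_comm, mul_div_assoc, div_self hb1, mul_one]
  rcases lt_or_gt_of_ne hji with hlt | hlt
  · exact main j i hlt hj0 hi0 hv
  · exact main i j hlt hi0 hj0 hv.symm

end

theorem vinf : PGL.VinfStmt.{u} := by
  intro k _ _ _
  let Ω := AlgebraicClosure (RatFunc k)
  let θ : Ω := algebraMap (RatFunc k) Ω RatFunc.X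
  have hθ : Transcendental k θ := by
    rw [transcendental_algebraMap_iff (algebraMap (RatFunc k) Ω).injective]
    exact RatFunc.transcendental_X
  obtain ⟨U, hk, h1⟩ := exists_inf hθ
  have h0 : U.valuation θ ≠ 0 := (zero_lt_one.trans h1).ne'
  refine ⟨Ω, inferInstance, inferInstance, inferInstance, θ, U, hθ, ⟨hk, ?_, ?_⟩, ?_⟩
  · intro x hx
    refine resalg k Ω U (algebraMap (RatFunc k) Ω).fieldRange x ?_ hk ?_ hx
    · rintro _ ⟨g, rfl⟩ hg
      exact res_ratFunc hk rfl h1 g hg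
    · obtain ⟨p, hp, hpx⟩ := Algebra.IsAlgebraic.isAlgebraic (R := RatFunc k) x
      refine ⟨p.map (algebraMap (RatFunc k) Ω).rangeRestrictField, ?_, ?_⟩
      · rwa [Ne, Polynomial.map_eq_zero]
      · rw [← hpx, aeval_def, aeval_def, eval₂_map]
        rfl
  · intro x hx y hy
    by_cases hx0 : x = 0
    · refine ⟨1, ?_⟩
      rw [hx0, pow_one, zero_mul]
      exact U.zero_mem
    obtain ⟨r, j, hr, hj⟩ := pow_val hk rfl h1 x hx0 (Algebra.IsAlgebraic.isAlgebraic x)
    obtain ⟨s, i, hs, hi⟩ := pow_val hk rfl h1 y hy (Algebra.IsAlgebraic.isAlgebraic y)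
    rw [mem_nu] at hx
    have hxr : U.valuation x ^ r < 1 := pow_lt_one₀ zero_le hx hr
    have hj0 : j < 0 := by
      by_contra hcon
      rw [hj] at hxr
      exact absurd hxr (not_lt.mpr (one_le_zpow₀ h1.le (not_lt.mp hcon)))
    have hxr' : U.valuation x ^ r ≤ U.valuation θ ^ (-1 : ℤ) := by
      rw [hj]
      exact zpow_le_zpow_right₀ h1.le (by omega)
    have hvy : U.valuation y ≠ 0 := (Valuation.ne_zero_iff _).mpr hy
    refine ⟨r * i.natAbs, ?_⟩
    rw [mem_U, map_mul, map_pow, map_inv₀, mul_inv_le_iff₀ (zero_lt_iff.mpr hvy), one_mul]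
    rw [← pow_le_pow_iff_left₀ zero_le zero_le hs, hi]
    calc (U.valuation x ^ (r * i.natAbs)) ^ s = (U.valuation x ^ r) ^ (i.natAbs * s) := by
          rw [← pow_mul, ← pow_mul, mul_assoc]
      _ ≤ (U.valuation θ ^ (-1 : ℤ)) ^ (i.natAbs * s) := by gcongr
      _ = U.valuation θ ^ (-(i.natAbs * s : ℕ) : ℤ) := by
          rw [← zpow_natCast, ← zpow_mul]; congr 1; push_cast; ring
      _ ≤ U.valuation θ ^ i := by
          apply zpow_le_zpow_right₀ h1.le
          have : i.natAbs * 1 ≤ i.natAbs * s := Nat.mul_le_mul_left _ (Nat.one_le_iff_ne_zero.mpr hs)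
          omega
  · rw [mem_U, not_le]; exact h1

end Helper54_PGL
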